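import Pool.Agent.N434.DT.F1
import Pool.Agent.N299.DT.SQ
import Pool.Agent.N299.ND.Stm

/-!
Project ND (helper299), task F1G (helper572): in a unital C*-algebra without characters `1` is a sum of
commutators with coefficients.
-/

set_option autoImplicit false

open scoped BoundedContinuousFunction Topology
open Filter

noncomputable section

namespace Pool.Agent.N572.ND

open Pool.Agent.N299 Pool.Agent.N299.DT Pool.Agent.N299.ND

theorem t_F1G' (hSQ : S_SQ) (hCEN : S_CEN) : S_F1G := by
  intro E _ hch
  let X : E × E → E := fun p => p.1 * p.2 - p.2 * p.1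
  by_cases hX : Cert X
  · obtain ⟨k, t, a, b, h⟩ := hX
    refine ⟨k, fun p => if p.1 = 0 then (t p.2).1 else if p.1 = 1 then (t p.2).2 else
      if p.1 = 2 then a p.2 else b p.2, ?_⟩
    dsimp only [X] at h
    simpa [Com] using h
  · exfalso
    obtain ⟨S, instS, π, hS, hsurj, h0⟩ := hSQ E _ X hX
    obtain ⟨f⟩ := Pool.Agent.N434.DT.exists_char hCEN hS π hsurj fun x z => h0 (x, z)
    exact hch f

theorem t_F1G : S_F1G := t_F1G' t_SQ t_CEN

end Pool.Agent.N572.ND
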