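import Pool.Agent.N299.ND.Stm
import Pool.Agent.Helper757.GL.Quot

/-!
Project ND (helper299), task QI (helper572): the quotient of the commutant of `I` by the annihilator.
-/

set_option autoImplicit false

open scoped BoundedContinuousFunction Topology
open Filter

noncomputable section

namespace Pool.Agent.N572.ND

open Pool.Agent.N299 Pool.Agent.N299.DT Pool.Agent.N299.ND

theorem t_QI : S_QI := by
  intro B Q _ _ q I hI
  have hcl : IsClosed (CenI q I : Set Q) := by
    rw [CenI, StarSubalgebra.coe_centralizer]
    exact Set.isClosed_centralizer _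
  have _ : IsClosed ((CenI q I : StarSubalgebra ℂ Q) : Set Q) := hcl
  let _ : CStarAlgebra (CenI q I) := inferInstance
  let Ann : Submodule ℂ (CenI q I) :=
    { carrier := {x | ∀ a ∈ I, (x : Q) * q (cst a) = 0}
      zero_mem' := by
        intro a _
        show ((0 : CenI q I) : Q) * q (cst a) = 0
        rw [ZeroMemClass.coe_zero, zero_mul]
      add_mem' := by
        intro x y hx hy a ha
        show ((x + y : CenI q I) : Q) * q (cst a) = 0
        rw [AddMemClass.coe_add, add_mul, hx a ha, hy a ha, add_zero]
      smul_mem' := by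
        intro c x hx a ha
        show (c • (x : Q)) * q (cst a) = 0
        rw [smul_mul_assoc, hx a ha, smul_zero] }
  have hAnn : ∀ x : CenI q I, x ∈ Ann ↔ ∀ a ∈ I, (x : Q) * q (cst a) = 0 := fun x => Iff.rfl
  have hcomm : ∀ (x : CenI q I), ∀ a ∈ I, q (cst a) * (x : Q) = (x : Q) * q (cst a) := by
    intro x a ha
    have h : (x : Q) ∈ StarSubalgebra.centralizer ℂ ((fun a : B => q (cst a)) '' (I : Set B)) := x.2
    rw [StarSubalgebra.mem_centralizer_iff] at h
    exact (h (q (cst a)) ⟨a, ha, rfl⟩).1
  have hCI : Pool.Agent.Helper757.GL.CI Ann :=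
    { closed := by
        have : (Ann : Set (CenI q I)) = ⋂ a ∈ I, {x : CenI q I | (x : Q) * q (cst a) = 0} := by
          ext x
          simp only [SetLike.mem_coe, hAnn, Set.mem_iInter, Set.mem_setOf_eq]
        rw [this]
        exact isClosed_biInter fun a _ =>
          isClosed_eq (continuous_subtype_val.mul continuous_const) continuous_const
      hl := by
        intro y x hx
        rw [hAnn] at hx ⊢
        intro a ha
        rw [MulMemClass.coe_mul, mul_assoc, hx a ha, mul_zero]
      hr := by
        intro y x hx
        rw [hAnn] at hx ⊢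
        intro a ha
        rw [MulMemClass.coe_mul, mul_assoc, ← hcomm y a ha, ← mul_assoc, hx a ha, zero_mul] }
  refine ⟨Pool.Agent.Helper757.GL.Q hCI, inferInstance,
    { Pool.Agent.Helper757.GL.mkHom hCI with
      map_star' := fun a => Pool.Agent.Helper757.GL.mk_star _ a }, ?_, ?_⟩
  · exact Pool.Agent.Helper757.GL.mkHom_surj hCI
  · intro x
    exact Pool.Agent.Helper757.GL.mkHom_eq_zero hCI x

end Pool.Agent.N572.ND
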